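import Pool.Agent.U81.SN.Leg
import Pool.Agent.W97.TW.Delta
import Pool.Agent.W97.TW.NewEleven

/-!
Simultaneous non-vanishing of two quadratic twists: the answer is negative. For a newform `f` of
level one or of prime level `N` and an odd quadratic character `χ` with `χ(N) = 1`, the root
numbers of `f ⊗ ψ` and `f ⊗ χψ` have product `-1` for every quadratic character `ψ`, so that at
least one of the two central values vanishes.
-/

set_option autoImplicit false

open UpperHalfPlane MatrixGroups CongruenceSubgroup Pool.Agent.W97.TW Pool.Agent.U81.SN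

namespace Pool.Agent.Results.MP_d17ed7_nt.RootNumberObstruction

/-- every twist of `f` by a primitive real Dirichlet character (trivial or quadratic) has exactly
one `L`-function -/
def HaveLFunctions (N : ℕ) (k : ℤ) (f : CuspForm (Gamma0 N : Subgroup (GL (Fin 2) ℝ)) k) : Prop :=
  ∀ (m : ℕ) (ψ : DirichletCharacter ℂ m), 0 < m → ψ.IsPrimitive → ψ ^ 2 = 1 →
    ∃! L : ℂ → ℂ, IsTwistedLFunction N k f ψ L

/-- for every quadratic character `ψ`, the product `L(f ⊗ ψ, 1/2) L(f ⊗ χψ, 1/2)` vanishes, where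
`χψ` is the primitive character inducing the product -/
def AlwaysVanishes (N : ℕ) (k : ℤ) (f : CuspForm (Gamma0 N : Subgroup (GL (Fin 2) ℝ)) k)
    (χ : QuadraticCharacter) : Prop :=
  ∀ (ψ : QuadraticCharacter) (L L' : ℂ → ℂ), IsTwistedLFunction N k f ψ.χ L →
    IsTwistedLFunction N k f (χ.χ.primitive_mul ψ.χ) L' → L (1 / 2) * L' (1 / 2) = 0

theorem have_L {N : ℕ} [NeZero N] {k : ℤ} {f : CuspForm (Gamma0 N : Subgroup (GL (Fin 2) ℝ)) k}
    (hN : N = 1 ∨ N.Prime) (hk : 0 < k) (hf : IsNewform N k f) : HaveLFunctions N k f := by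
  intro m ψ hm hψ hsq
  have : NeZero m := ⟨hm.ne'⟩
  obtain ⟨w, hw⟩ := hf.fricke
  obtain ⟨L, hL, _⟩ := root f hN hf hk hw ψ hψ hsq
  exact ⟨L, hL, fun L' hL' => unique_L f ψ hL' hL⟩

theorem always {N : ℕ} [NeZero N] {k : ℤ} {f : CuspForm (Gamma0 N : Subgroup (GL (Fin 2) ℝ)) k}
    (hN : N = 1 ∨ N.Prime) (hk : 0 < k) (hf : IsNewform N k f) (χ : QuadraticCharacter)
    (hodd : χ.χ.Odd) (hs : χ.χ N = 1) : AlwaysVanishes N k f χ := by
  intro ψ L L' hL hL'
  have : NeZero χ.modulus := ⟨χ.modulus_pos.ne'⟩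
  have : NeZero ψ.modulus := ⟨ψ.modulus_pos.ne'⟩
  exact vanish f hN hf hk χ.χ χ.sq_eq_one hodd hs ψ.χ ψ.primitive ψ.sq_eq_one hL hL'

lemma seven_ne : ((11 : ℕ) : ZMod 7) ≠ 0 := by decide

lemma seven_sq : ((11 : ℕ) : ZMod 7) = 2 * 2 := by decide

theorem result :
    (∀ (N : ℕ) (k : ℤ) (f : CuspForm (Gamma0 N : Subgroup (GL (Fin 2) ℝ)) k),
      (N = 1 ∨ N.Prime) → 0 < k → IsNewform N k f →
        HaveLFunctions N k f ∧
        (∀ χ : QuadraticCharacter, χ.χ.Odd → χ.χ N = 1 → AlwaysVanishes N k f χ) ∧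
        ∀ B : ℕ, ∃ χ : QuadraticCharacter, B < χ.modulus ∧ χ.χ.Odd ∧ χ.χ N = 1 ∧
          AlwaysVanishes N k f χ) ∧
    (∃ f : CuspForm (Gamma0 1 : Subgroup (GL (Fin 2) ℝ)) 12,
      (∀ z : ℍ, f z = ModularForm.eta z ^ 24) ∧ IsNewform 1 12 f ∧ HaveLFunctions 1 12 f ∧
        ∀ χ : QuadraticCharacter, χ.χ.Odd → AlwaysVanishes 1 12 f χ) ∧
    (∃ f : CuspForm (Gamma0 11 : Subgroup (GL (Fin 2) ℝ)) 2,
      (∀ z : ℍ, f z = ModularForm.eta z ^ 2 * ModularForm.eta (11 * z) ^ 2) ∧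
        IsNewform 11 2 f ∧ HaveLFunctions 11 2 f ∧
        (∀ χ : QuadraticCharacter, χ.χ.Odd → χ.χ 11 = 1 → AlwaysVanishes 11 2 f χ) ∧
        ∃ χ : QuadraticCharacter, χ.modulus = 7 ∧ χ.χ.Odd ∧ AlwaysVanishes 11 2 f χ) := by
  have h11 : Nat.Prime 11 := by norm_num
  refine ⟨?_, ⟨deltaForm, deltaForm_apply, isNewform_delta,
    have_L (Or.inl rfl) (by norm_num) isNewform_delta, fun χ hχ => ?_⟩,
    ⟨f11, f11_apply, isNewform_f11, have_L (Or.inr h11) (by norm_num) isNewform_f11, ?_, ?_⟩⟩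
  · intro N k f hN hk hf
    have hN0 : 0 < N := by
      rcases hN with rfl | hN
      · exact one_pos
      · exact hN.pos
    have : NeZero N := ⟨hN0.ne'⟩
    refine ⟨have_L hN hk hf, fun χ hodd hs => always hN hk hf χ hodd hs, fun B => ?_⟩
    obtain ⟨χ, hB, _, hodd, hs⟩ := exists_leg hN0 B
    exact ⟨χ, hB, hodd, hs, always hN hk hf χ hodd hs⟩
  · exact always (Or.inl rfl) (by norm_num) isNewform_delta χ hχ (by simp)
  · intro χ hodd hs
    exact always (Or.inr h11) (by norm_num) isNewform_f11 χ hodd (by exact_mod_cast hs)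
  · have : Fact (Nat.Prime 7) := ⟨by norm_num⟩
    have hodd : (legQ 7 (by norm_num)).χ.Odd := leg_neg_one 7 (by norm_num)
    refine ⟨legQ 7 (by norm_num), rfl, hodd, always (Or.inr h11) (by norm_num) isNewform_f11 _
      hodd ?_⟩
    change leg 7 ((11 : ℕ) : ZMod 7) = 1
    rw [leg_apply]
    have : quadraticChar (ZMod 7) ((11 : ℕ) : ZMod 7) = 1 := by
      rw [quadraticChar_one_iff_isSquare seven_ne]
      exact ⟨2, seven_sq⟩
    rw [this]
    norm_num

end Pool.Agent.Results.MP_d17ed7_nt.RootNumberObstruction
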